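import Mathlib
import Pool.Agent.X194.Seq

/-!
# MP_8a65de_an: an omega-set along return-time families which is no omega-limit set

The system is a subshift over `Bool × Bool`: in the first coordinate the spacing shift of the set
`P = ⋃ [4^k, 2·4^k)`, in the second coordinate the full one-sided shift.  The point `x` has first
coordinate `0^∞`, its second coordinate consists of long constant blocks changing at the times
`3·4^k`, in the middle of the gaps of `P`.  Then the omega-set of `x` along the family of return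
times consists of two fixed points.
-/

namespace Pool.Agent.Results.MP_8a65de_an.OmegaSets

open Set Topology Filter Pool.Agent.X194.Seq

variable {X : Type}

/-- `N_T(U,V) = {n : U ∩ T^{-n} V ≠ ∅}`. -/
def NSet (T : X → X) (U V : Set X) : Set ℕ := {n | (U ∩ T^[n] ⁻¹' V).Nonempty}

/-- open and non-empty -/
def Opene [TopologicalSpace X] (U : Set X) : Prop := IsOpen U ∧ U.Nonempty

/-- The family of all sets of times containing some `N_T(U,V)` with `U`, `V` opene. -/
def Fam [TopologicalSpace X] (T : X → X) : Set (Set ℕ) :=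
  {F | ∃ U V : Set X, Opene U ∧ Opene V ∧ NSet T U V ⊆ F}

/-- The omega-set of `x` along the family `Fam T`. -/
def omegaFam [TopologicalSpace X] (T : X → X) (x : X) : Set X :=
  ⋂ F ∈ Fam T, closure {z | ∃ i ∈ F, T^[i] x = z}

/-- The usual omega-limit set. -/
def omegaLim [TopologicalSpace X] (T : X → X) (y : X) : Set X :=
  ⋂ n ≥ 1, closure {z | ∃ k ≥ n, T^[k] y = z}

/-- Topological weak mixing: `T × T` is topologically transitive. -/
def WeaklyMixing [TopologicalSpace X] (T : X → X) : Prop :=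
  ∀ W₁ W₂ : Set (X × X), Opene W₁ → Opene W₂ → (NSet (Prod.map T T) W₁ W₂).Nonempty

/-! ### the example -/

/-- the set `P` -/
def inP (n : ℕ) : Prop := ∃ k, 4 ^ k ≤ n ∧ n < 2 * 4 ^ k

/-- the subshift -/
def S : Set (ℕ → Bool × Bool) :=
  {x | ∀ i j, i < j → (x i).1 = true → (x j).1 = true → inP (j - i)}

lemma S_shift : ∀ x ∈ S, (fun n => x (n + 1)) ∈ S := by
  intro x hx i j hij h1 h2
  have := hx (i + 1) (j + 1) (by omega) h1 h2
  have h3 : j + 1 - (i + 1) = j - i := by omega
  rwa [h3] at this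

lemma S_closed : IsClosed S := by
  have : S = ⋂ i : ℕ, ⋂ j : ℕ, {x | i < j → (x i).1 = true → (x j).1 = true → inP (j - i)} := by
    ext x; simp [S]
  rw [this]
  refine isClosed_iInter fun i => isClosed_iInter fun j => ?_
  have h1 : Continuous fun x : ℕ → Bool × Bool => (x i, x j) :=
    (continuous_apply i).prodMk (continuous_apply j)
  have h2 : {x : ℕ → Bool × Bool | i < j → (x i).1 = true → (x j).1 = true → inP (j - i)} =
      (fun x : ℕ → Bool × Bool => (x i, x j)) ⁻¹'
        {p | i < j → p.1.1 = true → p.2.1 = true → inP (j - i)} := rfl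
  rw [h2]
  exact (isClosed_discrete _).preimage h1

lemma glue {p q : ℕ → Bool × Bool} (hp : p ∈ S) (hq : q ∈ S) {N n : ℕ} (hN : N ≤ n)
    (hn : ∀ m, n ≤ m + N → m ≤ n + N → inP m) :
    ∃ r ∈ S, (∀ i < N, r i = p i) ∧ ∀ i < N, r (i + n) = q i := by
  refine ⟨fun i => if i < N then p i else if i < n then (false, false) else
    if i < n + N then q (i - n) else (false, false), ?_, ?_, ?_⟩
  · intro i j hij h1 h2
    by_cases hi : i < N
    · by_cases hj : j < N
      · simp only [hi, hj, if_true] at h1 h2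
        exact hp i j hij h1 h2
      · by_cases hj2 : j < n
        · simp [hj, hj2] at h2
        · by_cases hj3 : j < n + N
          · exact hn _ (by omega) (by omega)
          · simp [hj, hj2, hj3] at h2
    · by_cases hi2 : i < n
      · simp [hi, hi2] at h1
      · by_cases hj3 : j < n + N
        · have hi3 : i < n + N := by omega
          have hj : ¬ j < N := by omega
          have hj2 : ¬ j < n := by omega
          simp only [hi, hi2, hi3, hj, hj2, hj3, if_true, if_false] at h1 h2
          have := hq (i - n) (j - n) (by omega) h1 h2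
          have h3 : j - n - (i - n) = j - i := by omega
          rwa [h3] at this
        · have hj : ¬ j < N := by omega
          have hj2 : ¬ j < n := by omega
          simp [hj, hj2, hj3] at h2
  · intro i hi
    simp [hi]
  · intro i hi
    have h1 : ¬ i + n < N := by omega
    have h2 : ¬ i + n < n := by omega
    have h3 : i + n < n + N := by omega
    simp only [h1, h2, h3, if_true, if_false]
    congr 1
    omega

/-- good times inside a block of `P` -/
lemma good_time (k N m : ℕ) (hk : 2 * N < 4 ^ k) (h1 : 4 ^ k + N ≤ m + N)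
    (h2 : m ≤ 4 ^ k + N + N) : inP m := ⟨k, by omega, by omega⟩

/-- the second coordinate of the point `x` -/
def z (n : ℕ) : Bool := decide (Nat.log 4 (n / 3) % 2 = 1)

lemma log_block {j n : ℕ} (h1 : 4 ^ (j + 1) ≤ n) (h2 : n < 3 * 4 ^ (j + 1)) :
    Nat.log 4 (n / 3) = j := by
  rw [pow_succ] at h1 h2
  refine Nat.log_eq_of_pow_le_of_lt_pow ?_ ?_
  · rw [Nat.le_div_iff_mul_le (by norm_num)]; omega
  · rw [Nat.div_lt_iff_lt_mul (by norm_num), pow_succ]; omega

lemma z_switch {n : ℕ} (h : z n ≠ z (n + 1)) : ¬ inP n := by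
  rintro ⟨k, h1, h2⟩
  apply h
  rcases Nat.eq_zero_or_pos k with rfl | hk
  · have : n = 1 := by omega
    subst this
    simp [z]
  · obtain ⟨j, rfl⟩ : ∃ j, k = j + 1 := ⟨k - 1, by omega⟩
    have h4 : 0 < 4 ^ (j + 1) := by positivity
    unfold z
    rw [log_block (j := j) h1 (by omega), log_block (j := j) (n := n + 1) (by omega) (by omega)]

lemma z_block {j n : ℕ} (h1 : 4 ^ (j + 1) ≤ n) (h2 : n < 3 * 4 ^ (j + 1)) :
    z n = decide (j % 2 = 1) := by
  unfold z; rw [log_block h1 h2]

/-- the special point -/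
def x0 : S := ⟨fun n => (false, z n), fun i j _ h1 _ => by simp at h1⟩

/-- the fixed points -/
def fixPt (b : Bool) : S := ⟨fun _ => (false, b), fun i j _ h1 _ => by simp at h1⟩

/-- the shift on `S` -/
abbrev T : S → S := sh S_shift

lemma weaklyMixing_T : WeaklyMixing T := by
  rintro W₁ W₂ ⟨hW₁, ⟨a, b⟩, hab⟩ ⟨hW₂, ⟨c, d⟩, hcd⟩
  obtain ⟨N₁, hN₁⟩ := exists_N_prod hW₁ hab
  obtain ⟨N₂, hN₂⟩ := exists_N_prod hW₂ hcd
  set N := max N₁ N₂ with hN
  obtain ⟨k, hk⟩ : ∃ k, 2 * N < 4 ^ k := ⟨2 * N, Nat.lt_pow_self (by norm_num)⟩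
  set n := 4 ^ k + N with hn
  obtain ⟨r, hr, hra, hrc⟩ := glue a.2 c.2 (N := N) (n := n) (by omega)
    (fun m h1 h2 => good_time k N m hk (by omega) (by omega))
  obtain ⟨s, hs, hsb, hsd⟩ := glue b.2 d.2 (N := N) (n := n) (by omega)
    (fun m h1 h2 => good_time k N m hk (by omega) (by omega))
  refine ⟨n, (⟨r, hr⟩, ⟨s, hs⟩), ?_, ?_⟩
  · refine hN₁ _ _ (fun i hi => hra i ?_) (fun i hi => hsb i ?_)
    · exact lt_of_lt_of_le hi (le_max_left _ _)
    · exact lt_of_lt_of_le hi (le_max_left _ _)
  · show (Prod.map T T)^[n] (⟨r, hr⟩, ⟨s, hs⟩) ∈ W₂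
    rw [Prod.map_iterate]
    refine hN₂ _ _ (fun i hi => ?_) (fun i hi => ?_)
    · rw [sh_iter]
      exact hrc i (lt_of_lt_of_le hi (le_max_right _ _))
    · rw [sh_iter]
      exact hsd i (lt_of_lt_of_le hi (le_max_right _ _))

lemma fixPt_mem (b : Bool) : fixPt b ∈ omegaFam T x0 := by
  refine mem_iInter₂.2 fun F hF => ?_
  obtain ⟨U, V, ⟨hU, u, hu⟩, ⟨hV, v, hv⟩, hF⟩ := hF
  rw [mem_closure_iff_nhds_basis (nhds_basis_CylS (fixPt b))]
  rintro M -
  obtain ⟨N₁, hN₁⟩ := exists_N hU hu
  obtain ⟨N₂, hN₂⟩ := exists_N hV hv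
  set L := max M (max N₁ N₂) with hL
  have hL1 : M ≤ L := le_max_left _ _
  have hL2 : N₁ ≤ L := (le_max_left _ _).trans (le_max_right _ _)
  have hL3 : N₂ ≤ L := (le_max_right _ _).trans (le_max_right _ _)
  obtain ⟨j, hj, hjb⟩ : ∃ j, 2 * L < 4 ^ (j + 1) ∧ decide (j % 2 = 1) = b := by
    have hlt : ∀ j, 2 * L ≤ j → 2 * L < 4 ^ (j + 1) := fun j hj =>
      lt_of_le_of_lt (hj.trans (Nat.le_succ j)) (Nat.lt_pow_self (by norm_num))
    cases b with
    | false => exact ⟨2 * L, hlt _ le_rfl, by simp⟩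
    | true => exact ⟨2 * L + 1, hlt _ (by omega), by simp⟩
  set n := 4 ^ (j + 1) + L with hn
  obtain ⟨r, hr, hra, hrc⟩ := glue u.2 v.2 (N := L) (n := n) (by omega)
    (fun m h1 h2 => good_time (j + 1) L m hj (by omega) (by omega))
  refine ⟨T^[n] x0, ⟨n, hF ⟨⟨r, hr⟩, ?_, ?_⟩, rfl⟩, ?_⟩
  · exact hN₁ _ fun i hi => hra i (by omega)
  · refine hN₂ _ fun i hi => ?_
    rw [sh_iter]
    exact hrc i (by omega)
  · intro i hi
    rw [sh_iter]
    show (false, z (i + n)) = (false, b)
    rw [z_block (j := j) (by omega) (by omega), hjb]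

/-- the open set of points whose second coordinate changes at once -/
def W : Set S := {y | (y.1 0).2 ≠ (y.1 1).2}

lemma isClopen_W : IsClopen W := by
  have h1 : Continuous fun y : S => (y.1 0, y.1 1) :=
    ((continuous_apply 0).comp continuous_subtype_val).prodMk
      ((continuous_apply 1).comp continuous_subtype_val)
  have h2 : W = (fun y : S => (y.1 0, y.1 1)) ⁻¹' {p | p.1.2 ≠ p.2.2} := rfl
  rw [h2]
  exact ⟨(isClosed_discrete _).preimage h1, (isOpen_discrete _).preimage h1⟩

/-- a point of the system with first symbol `(true, c)` -/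
def spike (c : Bool) : S := ⟨fun n => if n = 0 then (true, c) else (false, c), by
  intro i j hij h1 h2
  have hj : j ≠ 0 := by omega
  simp [hj] at h2⟩

lemma omegaFam_disjoint_W {y : S} (hy : y ∈ omegaFam T x0) : y ∉ W := by
  intro hyW
  let U : Set S := {y | y.1 0 = (true, false)}
  let V : Set S := {y | y.1 0 = (true, true)}
  have hU : Opene U := ⟨isOpen_coord 0 {(true, false)}, spike false, by simp [U, spike]⟩
  have hV : Opene V := ⟨isOpen_coord 0 {(true, true)}, spike true, by simp [V, spike]⟩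
  have h1 := mem_iInter₂.1 hy (NSet T U V) ⟨U, V, hU, hV, Subset.rfl⟩
  rw [mem_closure_iff] at h1
  obtain ⟨w, hwW, i, ⟨r, hrU, hrV⟩, rfl⟩ := h1 W isClopen_W.isOpen hyW
  have h2 : (x0.1 (0 + i)).2 ≠ (x0.1 (1 + i)).2 := by
    have : ((T^[i] x0).1 0).2 ≠ ((T^[i] x0).1 1).2 := hwW
    rwa [sh_iter, sh_iter] at this
  have h3 : z i ≠ z (i + 1) := by
    have h4 : z (0 + i) ≠ z (1 + i) := h2
    rwa [zero_add, add_comm] at h4
  refine z_switch h3 ?_
  have h5 : r.1 0 = (true, false) := hrU
  have h6 : (T^[i] r).1 0 = (true, true) := hrV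
  rw [sh_iter, zero_add] at h6
  have hi : 0 < i := by
    rcases Nat.eq_zero_or_pos i with rfl | h
    · rw [h5] at h6; simp at h6
    · exact h
  have := r.2 0 i hi (by rw [h5]) (by rw [h6])
  simpa using this

lemma not_omegaLim (y : S) : omegaFam T x0 ≠ omegaLim T y := by
  intro heq
  have hSc : CompactSpace S := isCompact_iff_compactSpace.1 S_closed.isCompact
  -- eventually the orbit of y avoids W
  obtain ⟨k₀, hk₀⟩ : ∃ k₀, ∀ k ≥ k₀, T^[k] y ∉ W := by
    by_contra hcon
    push Not at hcon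
    have hK := IsCompact.nonempty_iInter_of_sequence_nonempty_isCompact_isClosed
      (fun n : ℕ => closure {z | ∃ k ≥ n, T^[k] y = z} ∩ W)
      (fun n => inter_subset_inter_left _ (closure_mono (by
        rintro z ⟨k, hk, rfl⟩; exact ⟨k, by omega, rfl⟩)))
      (fun n => by
        obtain ⟨k, hk, hkW⟩ := hcon n
        exact ⟨T^[k] y, subset_closure ⟨k, hk, rfl⟩, hkW⟩)
      ((isClosed_closure.inter isClopen_W.isClosed).isCompact)
      (fun n => isClosed_closure.inter isClopen_W.isClosed)
    obtain ⟨w, hw⟩ := hK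
    have hw' : ∀ n, w ∈ closure {z | ∃ k ≥ n, T^[k] y = z} ∩ W := fun n => mem_iInter.1 hw n
    have h1 : w ∈ omegaLim T y := mem_iInter₂.2 fun n _ => (hw' n).1
    rw [← heq] at h1
    exact omegaFam_disjoint_W h1 (hw' 0).2
  have hconst : ∀ k ≥ k₀, (y.1 k).2 = (y.1 k₀).2 := by
    intro k hk
    induction k, hk using Nat.le_induction with
    | base => rfl
    | succ k hk ih =>
      have h1 := hk₀ k hk
      have h2 : ((T^[k] y).1 0).2 = ((T^[k] y).1 1).2 := not_not.1 h1
      rw [sh_iter, sh_iter, zero_add, add_comm] at h2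
      rw [← h2, ih]
  have h1 : fixPt (! (y.1 k₀).2) ∈ omegaLim T y := heq ▸ fixPt_mem _
  have h2 := mem_iInter₂.1 h1 (k₀ + 1) (by omega)
  rw [mem_closure_iff_nhds_basis (nhds_basis_CylS _)] at h2
  obtain ⟨w, ⟨k, hk, rfl⟩, hw⟩ := h2 1 trivial
  have h3 := hw 0 (by norm_num)
  rw [sh_iter, zero_add] at h3
  have h4 := hconst k (by omega)
  rw [h3] at h4
  simp [fixPt] at h4

lemma no_isolated (x : S) : ¬ IsOpen ({x} : Set S) := by
  intro h
  obtain ⟨N, hN⟩ := exists_N h (mem_singleton x)
  have h1 : (⟨fun n => if n = N then ((x.1 n).1, ! (x.1 n).2) else x.1 n, by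
      intro i j hij h1 h2
      refine x.2 i j hij ?_ ?_
      · by_cases hi : i = N
        · simpa [hi] using h1
        · simpa [hi] using h1
      · by_cases hj : j = N
        · simpa [hj] using h2
        · simpa [hj] using h2⟩ : S) ∈ ({x} : Set S) :=
    hN _ (fun i hi => by simp [hi.ne])
  have h2 := congrArg (fun y : S => (y.1 N).2) (mem_singleton_iff.1 h1)
  simp at h2

lemma surj_T : Function.Surjective T := by
  intro y
  refine ⟨⟨fun n => if n = 0 then (false, false) else y.1 (n - 1), ?_⟩, ?_⟩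
  · intro i j hij h1 h2
    by_cases hi : i = 0
    · simp [hi] at h1
    · have hj : j ≠ 0 := by omega
      simp only [hi, hj, if_false] at h1 h2
      have := y.2 (i - 1) (j - 1) (by omega) h1 h2
      have h3 : j - 1 - (i - 1) = j - i := by omega
      rwa [h3] at this
  · apply Subtype.ext
    funext n
    simp [sh]

/-- **Disproof.** -/
theorem result : ∃ (X : Type) (_ : MetricSpace X) (_ : CompactSpace X) (T : X → X),
    Nontrivial X ∧ (∀ x : X, ¬ IsOpen ({x} : Set X)) ∧ Continuous T ∧ Function.Surjective T ∧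
    WeaklyMixing T ∧ ∃ x : X, ∀ y : X, omegaFam T x ≠ omegaLim T y := by
  let m : MetricSpace S := TopologicalSpace.metrizableSpaceMetric S
  refine ⟨S, m, isCompact_iff_compactSpace.1 S_closed.isCompact, T, ?_, no_isolated,
    continuous_sh S_shift, surj_T, weaklyMixing_T, x0, not_omegaLim⟩
  refine ⟨⟨fixPt false, fixPt true, fun h => ?_⟩⟩
  have := congrArg (fun y : S => (y.1 0).2) h
  simp [fixPt] at this

end Pool.Agent.Results.MP_8a65de_an.OmegaSets
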